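import Pool.Agent.V11219.SepCont

/-!
Every compact subspace of the space `S_cro(X × Y)` of separately continuous real functions with the
cross-open topology is metrizable, whenever `X` and `Y` are separable `T₁` spaces (in particular
whenever they are Polish).
-/

namespace Pool.Agent.Results.MP_63c1c3_gt.CrossOpenMetrizable

open Pool.Agent.V11219.SepCont

universe u v

/-- **Every compact subspace of `S_cro(X × Y)` is metrizable when `X` and `Y` are separable `T₁`
spaces**, in particular when `X` and `Y` are Polish. -/
theorem result (X : Type u) (Y : Type v) [TopologicalSpace X] [TopologicalSpace Y]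
    [T1Space X] [T1Space Y] [TopologicalSpace.SeparableSpace X]
    [TopologicalSpace.SeparableSpace Y] (K : Set (SCro X Y)) (hK : IsCompact K) :
    TopologicalSpace.MetrizableSpace K :=
  metrizable_cro K hK

end Pool.Agent.Results.MP_63c1c3_gt.CrossOpenMetrizable
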