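import Pool.Agent.V11219.SepCont

/-!
Every compact subspace of the space `S_cru(X × Y)` of separately continuous real functions with the
cross-uniform topology is metrizable, whenever `X` and `Y` are separable (in particular whenever
they are Polish).
-/

namespace Pool.Agent.Results.MP_63c1c3_gt.CrossUniformMetrizable

open Pool.Agent.V11219.SepCont

universe u v

/-- **Every compact subspace of `S_cru(X × Y)` is metrizable when `X` and `Y` are separable**, in
particular when `X` and `Y` are Polish. -/
theorem result (X : Type u) (Y : Type v) [TopologicalSpace X] [TopologicalSpace Y]
    [TopologicalSpace.SeparableSpace X] [TopologicalSpace.SeparableSpace Y]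
    (K : Set (SCru X Y)) (hK : IsCompact K) : TopologicalSpace.MetrizableSpace K :=
  metrizable_cru K hK

end Pool.Agent.Results.MP_63c1c3_gt.CrossUniformMetrizable
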